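import Pool.Agent.U100.ZP.Box

/-!
# Pronull sets contain few integral vectors of large cubes with arbitrary centres (helper file)
-/

set_option autoImplicit false

namespace Pool.Agent.U100.ZP

open Pool.Agent.N24.RW

theorem count_class' (q : ℕ) (hq : 0 < q) (H : ℕ) (hH : q ≤ H) (b : ℤ) (a : ZMod q) :
    (((Finset.Icc (b - (H : ℤ)) (b + H)).filter fun t : ℤ => (t : ZMod q) = a).card : ℝ) ≤
      2 * (2 * H + 1) / q := by
  classical
  refine le_trans ?_ (count_class q hq H hH (a - (b : ZMod q)))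
  have h1 : ((Finset.Icc (b - (H : ℤ)) (b + H)).filter fun t : ℤ => (t : ZMod q) = a).card ≤
      ((Finset.Icc (-(H : ℤ)) H).filter fun t : ℤ => (t : ZMod q) = a - (b : ZMod q)).card := by
    refine Finset.card_le_card_of_injOn (fun t => t - b) ?_ ?_
    · intro t ht
      rw [Finset.mem_coe, Finset.mem_filter, Finset.mem_Icc] at ht
      rw [Finset.mem_coe, Finset.mem_filter, Finset.mem_Icc]
      dsimp only
      refine ⟨⟨by omega, by omega⟩, ?_⟩
      push_cast
      rw [ht.2]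
    · intro t _ t' _ h
      have : t - b = t' - b := h
      omega
  exact_mod_cast h1

/-- a pronull set contains few vectors of large cubes -/
theorem cube_of_null {ι : Type} [Fintype ι] {B : Set (ι → ℤ)} (hB : ProNull B) (ε : ℝ)
    (hε : 0 < ε) : ∃ H₀ : ℕ, ∀ H : ℕ, H₀ ≤ H → ∀ b : ι → ℤ,
      (({z : ι → ℤ | (∀ i, |z i - b i| ≤ (H : ℤ)) ∧ z ∈ B}.ncard : ℕ) : ℝ) ≤
        ε * (2 * H + 1 : ℝ) ^ Fintype.card ι := by
  classical
  obtain ⟨q, hq, -, hc⟩ := hB 1 one_pos (ε / 2 ^ Fintype.card ι) (by positivity)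
  have : NeZero q := ⟨hq.ne'⟩
  have hqR : (0 : ℝ) < q := by exact_mod_cast hq
  obtain ⟨I, hI⟩ : ∃ I : Set (ι → ZMod q),
    I = (fun (c : ι → ℤ) (i : ι) => (c i : ZMod q)) '' B := ⟨_, rfl⟩
  rw [← hI] at hc
  have hIf : I.Finite := Set.toFinite I
  refine ⟨q, fun H hH b => ?_⟩
  have h1 : {z : ι → ℤ | (∀ i, |z i - b i| ≤ (H : ℤ)) ∧ z ∈ B} ⊆
      ((hIf.toFinset.biUnion fun a => Fintype.piFinset fun i =>
        (Finset.Icc (b i - (H : ℤ)) (b i + H)).filter fun t : ℤ => (t : ZMod q) = a i :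
          Finset (ι → ℤ)) : Set (ι → ℤ)) := by
    rintro z ⟨hz, hzB⟩
    rw [Finset.mem_coe, Finset.mem_biUnion]
    refine ⟨fun i => (z i : ZMod q), ?_, ?_⟩
    · rw [Set.Finite.mem_toFinset, hI]
      exact ⟨z, hzB, rfl⟩
    · rw [Fintype.mem_piFinset]
      intro i
      rw [Finset.mem_filter, Finset.mem_Icc]
      have := abs_le.1 (hz i)
      exact ⟨⟨by linarith [this.1], by linarith [this.2]⟩, rfl⟩
  have h2 := Set.ncard_le_ncard h1 (Finset.finite_toSet _)
  rw [Set.ncard_coe_finset] at h2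
  have h3 : (({z : ι → ℤ | (∀ i, |z i - b i| ≤ (H : ℤ)) ∧ z ∈ B}.ncard : ℕ) : ℝ) ≤
      ∑ a ∈ hIf.toFinset, ((Fintype.piFinset fun i =>
        (Finset.Icc (b i - (H : ℤ)) (b i + H)).filter fun t : ℤ =>
          (t : ZMod q) = a i).card : ℝ) := by
    exact_mod_cast h2.trans Finset.card_biUnion_le
  have h4 : ∀ a ∈ hIf.toFinset, ((Fintype.piFinset fun i =>
        (Finset.Icc (b i - (H : ℤ)) (b i + H)).filter fun t : ℤ =>
          (t : ZMod q) = a i).card : ℝ) ≤ (2 * (2 * H + 1) / q) ^ Fintype.card ι := by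
    intro a _
    rw [Fintype.card_piFinset]
    push_cast
    calc ∏ i, (((Finset.Icc (b i - (H : ℤ)) (b i + H)).filter fun t : ℤ =>
          (t : ZMod q) = a i).card : ℝ) ≤
        ∏ _i : ι, (2 * (2 * H + 1) / q : ℝ) :=
          Finset.prod_le_prod (fun i _ => Nat.cast_nonneg _) fun i _ =>
            count_class' q hq H hH (b i) (a i)
      _ = _ := by rw [Finset.prod_const, Finset.card_univ]
  refine h3.trans ((Finset.sum_le_sum h4).trans ?_)
  rw [Finset.sum_const, nsmul_eq_mul, ← Set.ncard_eq_toFinset_card I hIf]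
  calc (I.ncard : ℝ) * (2 * (2 * H + 1) / q) ^ Fintype.card ι ≤
      ε / 2 ^ Fintype.card ι * (q : ℝ) ^ Fintype.card ι *
        (2 * (2 * H + 1) / q) ^ Fintype.card ι :=
        mul_le_mul_of_nonneg_right hc (by positivity)
    _ = ε * (2 * H + 1 : ℝ) ^ Fintype.card ι := by
        rw [div_pow, mul_pow]
        field_simp

end Pool.Agent.U100.ZP
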