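import Pool.Agent.U100.ZP.Seq

/-!
# Random orbits, metric sequences and equidistributed sequences: one statement for all (helper file)
-/

set_option autoImplicit false

namespace Pool.Agent.U100.ZP

open MeasureTheory Filter Topology
open Pool.Agent.N24.RW Pool.Agent.N24.KM
open Pool.Agent.N918.EQ (Equi RareIn rareIn_of_equi rareIn_of_rarely)

theorem proNull_empty {ι : Type} [Fintype ι] : ProNull (∅ : Set (ι → ℤ)) := by
  intro M _ ε hε
  exact ⟨1, one_pos, Nat.coprime_one_left M, by simp [hε.le]⟩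

/-- All three types of sequences, for a property which follows from rare visits in countably many
pronull sets. -/
theorem all_parts {r : ℕ} {κ : Type} [Countable κ] (B : κ → Set (Fin r → ℤ))
    (hB : ∀ y, ProNull (B y)) (P : (ℕ → Finset ℕ) → (ℕ → Fin r → ℤ) → Prop)
    (hP : ∀ S x, (∀ y, RareIn S x (B y)) → P S x) :
    (2 ≤ r → ∀ (W : Walk (Fin r)) (v : Fin r → ℤ), v ≠ 0 →
      ∀ᵐ w ∂(words W.m), P Finset.range (orb W v w)) ∧
    ((∀ (a b : Fin r → ℝ) (f : Fin r → ℕ → ℝ → ℝ), (∀ i, a i < b i) →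
        (∀ i, Koksma (a i) (b i) (f i)) →
        ∀ᵐ α : Fin r → ℝ, (∀ i, α i ∈ Set.Icc (a i) (b i)) →
          P Finset.range (fun n i => ⌊f i n (α i)⌋)) ∧
      (∀ (a : Fin r → ℕ → ℝ) (δ : ℝ), 0 < δ → (∀ i m n, m ≠ n → δ ≤ |a i m - a i n|) →
        ∀ᵐ α : Fin r → ℝ, P Finset.range (fun n i => ⌊a i n * α i⌋)) ∧
      (∀ (k : ℕ → ℕ) (ξ : Fin r → ℝ), Function.Injective k → (∀ i, ξ i ≠ 0) →
        ∀ᵐ α : Fin r → ℝ, (∀ i, 1 < α i) →
          P Finset.range (fun n i => ⌊ξ i * α i ^ k n⌋))) ∧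
    (∀ (S : ℕ → Finset ℕ) (x : ℕ → Fin r → ℤ), Equi S x → P S x) := by
  refine ⟨fun hr W v hv => ?_, ?_, fun S x hx => hP S x fun y => rareIn_of_equi hx (hB y)⟩
  · have h1 : ∀ᵐ w ∂(words W.m), ∀ y : κ, Rarely (orb W v w) (B y) := by
      rw [ae_all_iff]
      intro y
      exact Pool.Agent.N24.RW.main (Fin r) (by rw [Fintype.card_fin]; exact hr) W v hv _ (hB y)
    filter_upwards [h1] with w hw
    exact hP _ _ fun y => rareIn_of_rarely (hw y)
  · exact Pool.Agent.N18.KM.parts Pool.Agent.N24.KM.main B hB (fun c => P Finset.range c)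
      fun _ hc => hP _ _ fun y => rareIn_of_rarely (hc y)

/-- the preimage under a choice of different coordinates -/
theorem proNull_comp {ι : Type} [Fintype ι] {r : ℕ} {B : Set (ι → ℤ)} (hB : ProNull B)
    {l : ι → Fin r} (hl : Function.Injective l) : ProNull {z : Fin r → ℤ | (fun i => z (l i)) ∈ B} :=
  (clo ι).2.2.2.2 (Fin r) l hl B hB

end Pool.Agent.U100.ZP
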