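import Pool.Agent.N24.RW.Defs

/-!
# Pronull sets contain few integral vectors of large boxes (helper file)
-/

set_option autoImplicit false

namespace Pool.Agent.U100.ZP

open Pool.Agent.N24.RW

theorem count_class (q : ℕ) (hq : 0 < q) (H : ℕ) (hH : q ≤ H) (a : ZMod q) :
    (((Finset.Icc (-(H : ℤ)) H).filter fun t : ℤ => (t : ZMod q) = a).card : ℝ) ≤
      2 * (2 * H + 1) / q := by
  classical
  have : NeZero q := ⟨hq.ne'⟩
  have hqR : (0 : ℝ) < q := by exact_mod_cast hq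
  have hHR : (q : ℝ) ≤ H := by exact_mod_cast hH
  have h1 : ((Finset.Icc (-(H : ℤ)) H).filter fun t : ℤ => (t : ZMod q) = a) =
      (Finset.Ioc (-(H : ℤ) - 1) H).filter fun t : ℤ => t ≡ (a.val : ℤ) [ZMOD (q : ℤ)] := by
    ext t
    rw [Finset.mem_filter, Finset.mem_filter, Finset.mem_Icc, Finset.mem_Ioc]
    have h2 : ((t : ZMod q) = a) ↔ t ≡ (a.val : ℤ) [ZMOD (q : ℤ)] := by
      rw [← ZMod.intCast_eq_intCast_iff]
      simp
    rw [h2]
    constructor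
    · rintro ⟨⟨h3, h4⟩, h5⟩
      exact ⟨⟨by omega, h4⟩, h5⟩
    · rintro ⟨⟨h3, h4⟩, h5⟩
      exact ⟨⟨by omega, h4⟩, h5⟩
  rw [h1]
  have h2 := Int.Ioc_filter_modEq_card (-(H : ℤ) - 1) H (r := (q : ℤ)) (by exact_mod_cast hq) (a.val : ℤ)
  have h3 : (((Finset.Ioc (-(H : ℤ) - 1) H).filter fun t : ℤ =>
      t ≡ (a.val : ℤ) [ZMOD (q : ℤ)]).card : ℝ) ≤ (2 * H + 1) / q + 1 := by
    have h4 : ((((Finset.Ioc (-(H : ℤ) - 1) H).filter fun t : ℤ =>
        t ≡ (a.val : ℤ) [ZMOD (q : ℤ)]).card : ℤ) : ℚ) ≤ (2 * H + 1) / q + 1 := by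
      rw [h2]
      push_cast
      refine max_le ?_ (by positivity)
      have h5 := Int.floor_le (((H : ℚ) - (a.val : ℚ)) / (q : ℚ))
      have h6 := Int.lt_floor_add_one ((-(H : ℚ) - 1 - (a.val : ℚ)) / (q : ℚ))
      have h7 : ((H : ℚ) - (a.val : ℚ)) / (q : ℚ) - (-(H : ℚ) - 1 - (a.val : ℚ)) / (q : ℚ) =
          (2 * H + 1) / q := by
        rw [← sub_div]
        congr 1
        ring
      linarith
    have h5 : ((((Finset.Ioc (-(H : ℤ) - 1) H).filter fun t : ℤ =>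
        t ≡ (a.val : ℤ) [ZMOD (q : ℤ)]).card : ℚ) : ℝ) ≤ (((2 * H + 1) / q + 1 : ℚ) : ℝ) := by
      exact_mod_cast h4
    push_cast at h5
    exact h5
  refine h3.trans ?_
  rw [div_add_one hqR.ne']
  refine div_le_div_of_nonneg_right ?_ hqR.le
  linarith

/-- a pronull set contains few vectors of large boxes -/
theorem box_of_null {r : ℕ} {B : Set (Fin r → ℤ)} (hB : ProNull B) (ε : ℝ) (hε : 0 < ε) :
    ∃ H₀ : ℕ, ∀ H : ℕ, H₀ ≤ H →
      (({z : Fin r → ℤ | (∀ i, |z i| ≤ (H : ℤ)) ∧ z ∈ B}.ncard : ℕ) : ℝ) ≤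
        ε * (2 * H + 1 : ℝ) ^ r := by
  classical
  obtain ⟨q, hq, -, hc⟩ := hB 1 one_pos (ε / 2 ^ r) (by positivity)
  have : NeZero q := ⟨hq.ne'⟩
  have hqR : (0 : ℝ) < q := by exact_mod_cast hq
  obtain ⟨I, hI⟩ : ∃ I : Set (Fin r → ZMod q),
    I = (fun (c : Fin r → ℤ) (i : Fin r) => (c i : ZMod q)) '' B := ⟨_, rfl⟩
  rw [← hI, Fintype.card_fin] at hc
  have hIf : I.Finite := Set.toFinite I
  refine ⟨q, fun H hH => ?_⟩
  have h1 : {z : Fin r → ℤ | (∀ i, |z i| ≤ (H : ℤ)) ∧ z ∈ B} ⊆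
      ((hIf.toFinset.biUnion fun a => Fintype.piFinset fun i =>
        (Finset.Icc (-(H : ℤ)) H).filter fun t : ℤ => (t : ZMod q) = a i :
          Finset (Fin r → ℤ)) : Set (Fin r → ℤ)) := by
    rintro z ⟨hz, hzB⟩
    rw [Finset.mem_coe, Finset.mem_biUnion]
    refine ⟨fun i => (z i : ZMod q), ?_, ?_⟩
    · rw [Set.Finite.mem_toFinset, hI]
      exact ⟨z, hzB, rfl⟩
    · rw [Fintype.mem_piFinset]
      intro i
      rw [Finset.mem_filter, Finset.mem_Icc]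
      exact ⟨abs_le.1 (hz i), rfl⟩
  have h2 := Set.ncard_le_ncard h1 (Finset.finite_toSet _)
  rw [Set.ncard_coe_finset] at h2
  have h3 : (({z : Fin r → ℤ | (∀ i, |z i| ≤ (H : ℤ)) ∧ z ∈ B}.ncard : ℕ) : ℝ) ≤
      ∑ a ∈ hIf.toFinset, ((Fintype.piFinset fun i =>
        (Finset.Icc (-(H : ℤ)) H).filter fun t : ℤ => (t : ZMod q) = a i).card : ℝ) := by
    exact_mod_cast h2.trans Finset.card_biUnion_le
  have h4 : ∀ a ∈ hIf.toFinset, ((Fintype.piFinset fun i =>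
        (Finset.Icc (-(H : ℤ)) H).filter fun t : ℤ => (t : ZMod q) = a i).card : ℝ) ≤
      (2 * (2 * H + 1) / q) ^ r := by
    intro a _
    rw [Fintype.card_piFinset]
    push_cast
    calc ∏ i, (((Finset.Icc (-(H : ℤ)) H).filter fun t : ℤ => (t : ZMod q) = a i).card : ℝ) ≤
        ∏ _i : Fin r, (2 * (2 * H + 1) / q : ℝ) :=
          Finset.prod_le_prod (fun i _ => Nat.cast_nonneg _) fun i _ => count_class q hq H hH (a i)
      _ = _ := by rw [Finset.prod_const, Finset.card_univ, Fintype.card_fin]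
  refine h3.trans ((Finset.sum_le_sum h4).trans ?_)
  rw [Finset.sum_const, nsmul_eq_mul, ← Set.ncard_eq_toFinset_card I hIf]
  calc (I.ncard : ℝ) * (2 * (2 * H + 1) / q) ^ r ≤
      ε / 2 ^ r * (q : ℝ) ^ r * (2 * (2 * H + 1) / q) ^ r :=
        mul_le_mul_of_nonneg_right hc (by positivity)
    _ = ε * (2 * H + 1 : ℝ) ^ r := by
        rw [div_pow, mul_pow]
        field_simp

end Pool.Agent.U100.ZP
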