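import Pool.Agent.N18.KM.Base
import Pool.Agent.N24.RW.All
import Pool.Agent.N24.KM.All
import Pool.Agent.N918.EQ.Base

/-!
# One null set of times for all conditions on prime divisors of the values of pairs of polynomials
(helper file)
-/

set_option autoImplicit false

namespace Pool.Agent.U100.ZP

open MvPolynomial MeasureTheory Filter Topology
open Pool.Agent.N24.RW Pool.Agent.N24.KM
open Pool.Agent.N603.TH (Divergent)
open Pool.Agent.N618.RO (Bd)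
open Pool.Agent.N18.KM (Dat)
open Pool.Agent.N918.EQ (Equi RareIn rareIn_of_equi rareIn_of_rarely)

/-- `E` has density zero relative to the sets `S N` of times. -/
def NullIn (S : ℕ → Finset ℕ) (E : Set ℕ) : Prop :=
  ∀ ε : ℝ, 0 < ε → ∃ N₀ : ℕ, ∀ N : ℕ, N₀ ≤ N →
    (({n : ℕ | n ∈ S N ∧ n ∈ E}.ncard : ℕ) : ℝ) ≤ ε * (S N).card

theorem fin_in (S : Finset ℕ) (P : ℕ → Prop) : {n : ℕ | n ∈ S ∧ P n}.Finite :=
  S.finite_toSet.subset fun _ h => h.1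

theorem rareIn_union {ι : Type} {S : ℕ → Finset ℕ} {c : ℕ → ι → ℤ} {A B : Set (ι → ℤ)}
    (hA : RareIn S c A) (hB : RareIn S c B) : RareIn S c (A ∪ B) := by
  intro ε hε
  obtain ⟨N₁, h₁⟩ := hA (ε / 2) (by positivity)
  obtain ⟨N₂, h₂⟩ := hB (ε / 2) (by positivity)
  refine ⟨max N₁ N₂, fun N hN => ?_⟩
  have h3 : {n : ℕ | n ∈ S N ∧ c n ∈ A ∪ B} =
      {n : ℕ | n ∈ S N ∧ c n ∈ A} ∪ {n : ℕ | n ∈ S N ∧ c n ∈ B} := by
    ext n
    simp only [Set.mem_ofPred_eq, Set.mem_union]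
    tauto
  rw [h3]
  have h4 := Set.ncard_union_le {n : ℕ | n ∈ S N ∧ c n ∈ A} {n : ℕ | n ∈ S N ∧ c n ∈ B}
  have h5 : ((({n : ℕ | n ∈ S N ∧ c n ∈ A} ∪ {n : ℕ | n ∈ S N ∧ c n ∈ B}).ncard : ℕ) : ℝ) ≤
      ({n : ℕ | n ∈ S N ∧ c n ∈ A}.ncard : ℝ) + ({n : ℕ | n ∈ S N ∧ c n ∈ B}.ncard : ℝ) := by
    exact_mod_cast h4
  have h6 := h₁ N ((le_max_left _ _).trans hN)
  have h7 := h₂ N ((le_max_right _ _).trans hN)
  linarith

theorem rareIn_le {ι : Type} {S : ℕ → Finset ℕ} {c : ℕ → ι → ℤ} (B : ℕ → Set (ι → ℤ))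
    (h : ∀ j, RareIn S c (B j)) (k : ℕ) : RareIn S c {v | ∃ j ≤ k, v ∈ B j} := by
  induction k with
  | zero =>
    have h1 : {v | ∃ j ≤ 0, v ∈ B j} = B 0 := by
      ext v
      simp
    rw [h1]
    exact h 0
  | succ k ih =>
    have h1 : {v | ∃ j ≤ k + 1, v ∈ B j} = {v | ∃ j ≤ k, v ∈ B j} ∪ B (k + 1) := by
      ext v
      simp only [Set.mem_ofPred_eq, Set.mem_union]
      constructor
      · rintro ⟨j, hj, hv⟩
        rcases Nat.lt_or_ge j (k + 1) with hlt | hge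
        · exact Or.inl ⟨j, by omega, hv⟩
        · obtain rfl : j = k + 1 := by omega
          exact Or.inr hv
      · rintro (⟨j, hj, hv⟩ | hv)
        · exact ⟨j, by omega, hv⟩
        · exact ⟨k + 1, le_rfl, hv⟩
    rw [h1]
    exact rareIn_union ih (h (k + 1))

/-- One null set for countably many rare visits, relative to arbitrary sets of times. -/
theorem oneSet {ι κ : Type} [Countable κ] (S : ℕ → Finset ℕ) (c : ℕ → ι → ℤ)
    (B : κ → Set (ι → ℤ)) (h : ∀ x, RareIn S c (B x)) :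
    ∃ E : Set ℕ, NullIn S E ∧ ∀ x, {n : ℕ | n ∉ E ∧ c n ∈ B x}.Finite := by
  classical
  rcases isEmpty_or_nonempty κ with hκ | hκ
  · refine ⟨∅, fun ε hε => ⟨0, fun N _ => ?_⟩, fun x => (hκ.false x).elim⟩
    have h1 : {n : ℕ | n ∈ S N ∧ n ∈ (∅ : Set ℕ)} = ∅ := by
      ext n
      simp
    rw [h1, Set.ncard_empty]
    simpa using mul_nonneg hε.le (Nat.cast_nonneg (S N).card)
  obtain ⟨f, hf⟩ := exists_surjective_nat κ
  have h1 := rareIn_le (fun j => B (f j)) fun j => h (f j)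
  choose g hg using fun k : ℕ => h1 k (1 / ((k : ℝ) + 1)) (by positivity)
  let K : ℕ → ℕ := fun N => Nat.findGreatest (fun k => g k ≤ N) N
  have hKge : ∀ k N, k ≤ N → g k ≤ N → k ≤ K N := fun k N h1 h2 => Nat.le_findGreatest h1 h2
  have hKsp : ∀ N, K N ≠ 0 → g (K N) ≤ N := fun N h0 =>
    Nat.findGreatest_of_ne_zero (P := fun k => g k ≤ N) (n := N) rfl h0
  refine ⟨{t | ∀ N, t ∈ S N → c t ∈ {v | ∃ j ≤ K N, v ∈ B (f j)}}, ?_, ?_⟩
  · intro ε hε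
    obtain ⟨k₀, hk₀⟩ := exists_nat_one_div_lt hε
    refine ⟨k₀ + 1 + g (k₀ + 1), fun N hN => ?_⟩
    have hk : k₀ + 1 ≤ K N := hKge _ _ (by omega) (by omega)
    have h2 := hg (K N) N (hKsp N (by omega))
    have h3 : {n : ℕ | n ∈ S N ∧ n ∈ {t | ∀ N, t ∈ S N → c t ∈ {v | ∃ j ≤ K N, v ∈ B (f j)}}} ⊆
        {n : ℕ | n ∈ S N ∧ c n ∈ {v | ∃ j ≤ K N, v ∈ B (f j)}} := fun n hn => ⟨hn.1, hn.2 N hn.1⟩
    have h4 := Set.ncard_le_ncard h3 (fin_in _ _)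
    have h5 : (1 : ℝ) / ((K N : ℝ) + 1) ≤ ε := by
      refine le_trans ?_ hk₀.le
      gcongr
      exact_mod_cast (by omega : k₀ ≤ K N)
    calc (({n : ℕ | n ∈ S N ∧
          n ∈ {t | ∀ N, t ∈ S N → c t ∈ {v | ∃ j ≤ K N, v ∈ B (f j)}}}.ncard : ℕ) : ℝ) ≤
        (({n : ℕ | n ∈ S N ∧ c n ∈ {v | ∃ j ≤ K N, v ∈ B (f j)}}.ncard : ℕ) : ℝ) := by
          exact_mod_cast h4
      _ ≤ 1 / ((K N : ℝ) + 1) * (S N).card := h2
      _ ≤ ε * (S N).card := mul_le_mul_of_nonneg_right h5 (Nat.cast_nonneg _)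
  · intro x
    obtain ⟨k, rfl⟩ := hf x
    refine (Set.Finite.biUnion (Set.finite_lt_nat (k + g k))
      (fun N _ => (S N).finite_toSet)).subset ?_
    rintro n ⟨hn, hnB⟩
    rw [Set.mem_ofPred_eq] at hn
    push Not at hn
    obtain ⟨N, hnS, hnK⟩ := hn
    refine Set.mem_biUnion (x := N) ?_ hnS
    by_contra hcon
    rw [Set.mem_ofPred_eq, not_lt] at hcon
    exact hnK ⟨k, hKge k N (by omega) (by omega), hnB⟩

/-- One null set of times for all pairs of polynomials: the sequence `x` of integral vectors, at the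
times in the sets `S N`. -/
def AllPairs {r : ℕ} (S : ℕ → Finset ℕ) (x : ℕ → Fin r → ℤ) : Prop :=
  ∃ E : Set ℕ, NullIn S E ∧ ∀ h G : MvPolynomial (Fin r) ℤ, h ≠ 0 → Divergent h G →
    {n : ℕ | n ∉ E ∧ x n ∈ Bd h G 0}.Finite

theorem allPairs_of {r : ℕ} {S : ℕ → Finset ℕ} {x : ℕ → Fin r → ℤ}
    (h : ∀ d : Dat r, RareIn S x (Bd d.1.1 d.1.2.1 d.1.2.2)) : AllPairs S x := by
  obtain ⟨E, h1, h2⟩ := oneSet S x _ h
  exact ⟨E, h1, fun f G h0 hd => h2 ⟨(f, G, 0), h0, hd⟩⟩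

theorem allPairs_orb {r : ℕ} (hr : 2 ≤ r) (W : Walk (Fin r)) (v : Fin r → ℤ) (hv : v ≠ 0) :
    ∀ᵐ w ∂(words W.m), AllPairs Finset.range (orb W v w) := by
  have h1 : ∀ᵐ w ∂(words W.m), ∀ d : Dat r,
      Rarely (orb W v w) (Bd d.1.1 d.1.2.1 d.1.2.2) := by
    rw [ae_all_iff]
    intro d
    exact Pool.Agent.N24.RW.main (Fin r) (by rw [Fintype.card_fin]; exact hr) W v hv _
      (Pool.Agent.N618.RO.bd_null crit clo d.2.1 d.2.2 _)
  filter_upwards [h1] with w hw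
  exact allPairs_of fun d => rareIn_of_rarely (hw d)

theorem allPairs_metric (r : ℕ) :
    (∀ (a b : Fin r → ℝ) (f : Fin r → ℕ → ℝ → ℝ), (∀ i, a i < b i) →
      (∀ i, Koksma (a i) (b i) (f i)) →
      ∀ᵐ α : Fin r → ℝ, (∀ i, α i ∈ Set.Icc (a i) (b i)) →
        AllPairs Finset.range (fun n i => ⌊f i n (α i)⌋)) ∧
    (∀ (a : Fin r → ℕ → ℝ) (δ : ℝ), 0 < δ → (∀ i m n, m ≠ n → δ ≤ |a i m - a i n|) →
      ∀ᵐ α : Fin r → ℝ, AllPairs Finset.range (fun n i => ⌊a i n * α i⌋)) ∧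
    (∀ (k : ℕ → ℕ) (ξ : Fin r → ℝ), Function.Injective k → (∀ i, ξ i ≠ 0) →
      ∀ᵐ α : Fin r → ℝ, (∀ i, 1 < α i) →
        AllPairs Finset.range (fun n i => ⌊ξ i * α i ^ k n⌋)) :=
  Pool.Agent.N18.KM.parts Pool.Agent.N24.KM.main (κ := Dat r)
    (fun d => Bd d.1.1 d.1.2.1 d.1.2.2)
    (fun d => Pool.Agent.N618.RO.bd_null crit clo d.2.1 d.2.2 _)
    (fun c => AllPairs Finset.range c) fun _ hc => allPairs_of fun d => rareIn_of_rarely (hc d)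

theorem allPairs_equi {r : ℕ} {S : ℕ → Finset ℕ} {x : ℕ → Fin r → ℤ} (hx : Equi S x) :
    AllPairs S x :=
  allPairs_of fun d => rareIn_of_equi hx
    (Pool.Agent.N618.RO.bd_null crit clo d.2.1 d.2.2 _)

end Pool.Agent.U100.ZP
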