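import Pool.Agent.N603.TH.Pol

/-!
# Systems of forms with only the trivial zero at the generic point of a hypersurface which is of degree
one in one of the variables (helper file)
-/

set_option autoImplicit false

namespace Pool.Agent.U100.ZP

open MvPolynomial
open Pool.Agent.N603.TH (LinearIn)

attribute [local instance] MvPolynomial.algebraMvPolynomial in
/-- Nullstellensatz with denominators: a system over `Λ` with only the trivial zero over the algebraically
closed field `F` over `Λ / 𝔭`. -/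
theorem cert {Λ : Type} [CommRing Λ] {σ β : Type*} [Finite σ] (P : β → MvPolynomial σ Λ)
    {F : Type} [Field F] [IsAlgClosed F] (φ : Λ →+* F)
    (h : ∀ y : σ → F, (∀ b, eval₂ φ y (P b) = 0) → y = 0) (j : σ) :
    ∃ (g : Λ) (M : ℕ), φ g ≠ 0 ∧ C g * X j ^ M ∈
      Ideal.span (Set.range P) ⊔ Ideal.map C (RingHom.ker φ) := by
  classical
  have hprime : (RingHom.ker φ).IsPrime := RingHom.ker_isPrime φ
  let D := Λ ⧸ RingHom.ker φ
  let k := FractionRing D
  let q : Λ →+* D := Ideal.Quotient.mk _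
  let ι : Λ →+* k := (algebraMap D k).comp q
  let φD : D →+* F := Ideal.Quotient.lift _ φ (fun a ha => ha)
  have hφD : Function.Injective φD := by
    rw [injective_iff_map_eq_zero]
    intro a
    obtain ⟨a, rfl⟩ := Ideal.Quotient.mk_surjective a
    intro ha
    exact Ideal.Quotient.eq_zero_iff_mem.2 ha
  let φk : k →+* F := IsFractionRing.lift hφD
  have e1 : φk.comp ι = φ := by
    ext a
    show IsFractionRing.lift hφD (algebraMap D k (Ideal.Quotient.mk _ a)) = φ a
    rw [IsFractionRing.lift_algebraMap]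
    rfl
  let _ : Algebra k F := φk.toAlgebra
  let J : Ideal (MvPolynomial σ k) := Ideal.span (Set.range fun b => MvPolynomial.map ι (P b))
  have hrad : (X j : MvPolynomial σ k) ∈ J.radical := by
    rw [← vanishingIdeal_zeroLocus_eq_radical (K := F), mem_vanishingIdeal_iff]
    intro z hz
    rw [mem_zeroLocus_iff] at hz
    have hz0 : z = 0 := by
      apply h
      intro b
      have h1 := hz _ (Ideal.subset_span ⟨b, rfl⟩)
      rw [aeval_def, eval₂_map] at h1
      have h2 : (algebraMap k F).comp ι = φ := e1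
      rw [h2] at h1
      exact h1
    rw [aeval_X, hz0, Pi.zero_apply]
  obtain ⟨M, hM⟩ := hrad
  let JD : Ideal (MvPolynomial σ D) := Ideal.span (Set.range fun b => MvPolynomial.map q (P b))
  have hJ : J = Ideal.map (algebraMap (MvPolynomial σ D) (MvPolynomial σ k)) JD := by
    rw [Ideal.map_span, ← Set.range_comp]
    refine congrArg Ideal.span (congrArg Set.range ?_)
    funext b
    simp only [Function.comp_apply]
    rw [MvPolynomial.algebraMap_def, MvPolynomial.map_map]
  have hloc : IsLocalization ((nonZeroDivisors D).map (C : D →+* MvPolynomial σ D))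
      (MvPolynomial σ k) := MvPolynomial.isLocalization (nonZeroDivisors D) k
  rw [hJ, IsLocalization.mem_map_algebraMap_iff ((nonZeroDivisors D).map (C : D →+* MvPolynomial σ D))]
    at hM
  obtain ⟨⟨⟨f, hf⟩, ⟨_, ⟨d, hd, rfl⟩⟩⟩, hx⟩ := hM
  have hinj : Function.Injective (algebraMap (MvPolynomial σ D) (MvPolynomial σ k)) := by
    rw [MvPolynomial.algebraMap_def]
    exact MvPolynomial.map_injective _ (IsFractionRing.injective D k)
  have hx' : (X j : MvPolynomial σ D) ^ M * C d = f := by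
    apply hinj
    rw [map_mul, map_pow]
    simp only at hx
    rw [← hx]
    congr 2
    rw [MvPolynomial.algebraMap_def, MvPolynomial.map_X]
  obtain ⟨g, rfl⟩ := Ideal.Quotient.mk_surjective d
  refine ⟨g, M, ?_, ?_⟩
  · intro h0
    apply nonZeroDivisors.ne_zero hd
    exact Ideal.Quotient.eq_zero_iff_mem.2 h0
  · have hqs : Function.Surjective (MvPolynomial.map q : MvPolynomial σ Λ →+* MvPolynomial σ D) :=
      MvPolynomial.map_surjective _ Ideal.Quotient.mk_surjective
    have h1 : C g * X j ^ M ∈ Ideal.comap (MvPolynomial.map q)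
        (Ideal.map (MvPolynomial.map q) (Ideal.span (Set.range P))) := by
      rw [Ideal.mem_comap, Ideal.map_span, ← Set.range_comp, map_mul, map_pow, map_C, map_X,
        mul_comm]
      change (X j : MvPolynomial σ D) ^ M * C (Ideal.Quotient.mk _ g) ∈ JD
      rw [hx']
      exact hf
    rw [Ideal.comap_map_of_surjective' _ hqs] at h1
    rw [MvPolynomial.ker_map] at h1
    have h2 : RingHom.ker q = RingHom.ker φ := Ideal.mk_ker
    rwa [h2] at h1

/-- Only the trivial zero over the fields in which `g` does not vanish. -/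
theorem trivial_of {Λ : Type} [CommRing Λ] {σ β : Type*} (P : β → MvPolynomial σ Λ)
    {F : Type} [Field F] (φ : Λ →+* F) {j : σ} {g : Λ} {M : ℕ}
    (h : C g * X j ^ M ∈ Ideal.span (Set.range P) ⊔ Ideal.map C (RingHom.ker φ))
    {F' : Type} [Field F'] (φ' : Λ →+* F') (hker : RingHom.ker φ ≤ RingHom.ker φ') (hg : φ' g ≠ 0)
    (y : σ → F') (hy : ∀ b, eval₂ φ' y (P b) = 0) : y j = 0 := by
  have hle : Ideal.span (Set.range P) ⊔ Ideal.map C (RingHom.ker φ) ≤
      RingHom.ker (eval₂Hom φ' y) := by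
    refine sup_le ?_ ?_
    · rw [Ideal.span_le]
      rintro _ ⟨b, rfl⟩
      rw [SetLike.mem_coe, RingHom.mem_ker, coe_eval₂Hom]
      exact hy b
    · rw [Ideal.map_le_iff_le_comap]
      intro a ha
      rw [Ideal.mem_comap, RingHom.mem_ker, coe_eval₂Hom, eval₂_C]
      exact hker ha
  have h1 := hle h
  rw [RingHom.mem_ker, map_mul, map_pow, coe_eval₂Hom, eval₂_C, eval₂_X] at h1
  rcases mul_eq_zero.1 h1 with h2 | h2
  · exact absurd h2 hg
  · exact eq_zero_of_pow_eq_zero h2

section

variable {r : ℕ}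

/-- pseudo-division by a polynomial of degree one in the variable `i` -/
theorem pseudo {i : Fin r} {a b : MvPolynomial (Fin r) ℤ} (ha : i ∉ a.vars) (hb : i ∉ b.vars)
    (u : MvPolynomial (Fin r) ℤ) : ∃ (k : ℕ) (q ρ : MvPolynomial (Fin r) ℤ), i ∉ ρ.vars ∧
      a ^ k * u = q * (a * X i + b) + ρ := by
  classical
  have hmul : ∀ f g : MvPolynomial (Fin r) ℤ, i ∉ f.vars → i ∉ g.vars → i ∉ (f * g).vars := by
    intro f g hf hg h
    rcases Finset.mem_union.1 (vars_mul f g h) with h | h
    · exact hf h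
    · exact hg h
  have hpow : ∀ k : ℕ, i ∉ (a ^ k).vars := by
    intro k h
    exact ha (vars_pow a k h)
  induction u using MvPolynomial.induction_on with
  | C c =>
    refine ⟨0, 0, C c, ?_, by ring⟩
    rw [vars_C]
    exact Finset.notMem_empty i
  | add u₁ u₂ h₁ h₂ =>
    obtain ⟨k₁, q₁, ρ₁, hρ₁, e₁⟩ := h₁
    obtain ⟨k₂, q₂, ρ₂, hρ₂, e₂⟩ := h₂
    refine ⟨k₁ + k₂, a ^ k₂ * q₁ + a ^ k₁ * q₂, a ^ k₂ * ρ₁ + a ^ k₁ * ρ₂, ?_, ?_⟩
    · intro h
      rcases Finset.mem_union.1 (vars_add_subset _ _ h) with h | h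
      · exact hmul _ _ (hpow k₂) hρ₁ h
      · exact hmul _ _ (hpow k₁) hρ₂ h
    · calc a ^ (k₁ + k₂) * (u₁ + u₂) = a ^ k₂ * (a ^ k₁ * u₁) + a ^ k₁ * (a ^ k₂ * u₂) := by ring
        _ = _ := by
            rw [e₁, e₂]
            ring
  | mul_X u j h =>
    obtain ⟨k, q, ρ, hρ, e⟩ := h
    by_cases hj : j = i
    · subst hj
      refine ⟨k + 1, q * (a * X j + b - b) + ρ, -(ρ * b), ?_, ?_⟩
      · rw [vars_neg]
        exact hmul _ _ hρ hb
      · calc a ^ (k + 1) * (u * X j) = (a ^ k * u) * (a * X j) := by ring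
          _ = _ := by
              rw [e]
              ring
    · refine ⟨k, q * X j, ρ * X j, ?_, ?_⟩
      · refine hmul _ _ hρ ?_
        rw [vars_X]
        simp [Ne.symm hj]
      · calc a ^ k * (u * X j) = (a ^ k * u) * X j := by ring
          _ = _ := by
              rw [e]
              ring

/-- `τ` is a generic point of the hypersurface `h = 0` over the integers, where `h = a X_i + b` is of
degree one in the variable `i`. -/
def Generic (h : MvPolynomial (Fin r) ℤ) (τ : Fin r → ℂ) : Prop :=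
  ∃ (i : Fin r) (a b : MvPolynomial (Fin r) ℤ), i ∉ a.vars ∧ i ∉ b.vars ∧ a ≠ 0 ∧
    h = a * X i + b ∧ aeval τ h = 0 ∧ AlgebraicIndependent ℤ (fun j : {j : Fin r // j ≠ i} => τ j)

theorem aeval_ne {i : Fin r} {τ : Fin r → ℂ}
    (hτ : AlgebraicIndependent ℤ (fun j : {j : Fin r // j ≠ i} => τ j))
    {f : MvPolynomial (Fin r) ℤ} (hf : i ∉ f.vars) (hf0 : f ≠ 0) : aeval τ f ≠ 0 := by
  classical
  obtain ⟨g, rfl⟩ := exists_rename_eq_of_vars_subset_range f
    (fun j : {j : Fin r // j ≠ i} => (j : Fin r)) Subtype.val_injective (by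
      intro j hj
      have hji : j ≠ i := by
        rintro rfl
        exact hf hj
      exact ⟨⟨j, hji⟩, rfl⟩)
  rw [aeval_rename]
  intro h0
  apply hf0
  have h1 : g = 0 := by
    rw [algebraicIndependent_iff] at hτ
    exact hτ g h0
  rw [h1, map_zero]

/-- polynomials which do not vanish at the generic point are coprime to `h` -/
theorem linearIn_of {h : MvPolynomial (Fin r) ℤ} {τ : Fin r → ℂ} (hτ : Generic h τ) :
    ∃ i : Fin r, ∀ g, aeval τ g ≠ 0 → LinearIn i h g := by
  obtain ⟨i, a, b, ha, hb, ha0, hh, h0, hind⟩ := hτ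
  refine ⟨i, fun g hg => ?_⟩
  obtain ⟨k, q, ρ, hρ, e⟩ := pseudo ha hb g
  refine ⟨a, b, -q, a ^ k, ρ, ha, hb, hρ, ha0, ?_, hh, ?_⟩
  · rintro rfl
    have h1 := congrArg (aeval τ) e
    rw [map_mul, map_add, map_mul, ← hh, h0, map_zero, mul_zero, add_zero, map_pow] at h1
    rcases mul_eq_zero.1 h1 with h2 | h2
    · exact aeval_ne hind ha ha0 (eq_zero_of_pow_eq_zero h2)
    · exact hg h2
  · rw [hh, e]
    ring

/-- **Spreading out.** -/
theorem spread {h : MvPolynomial (Fin r) ℤ} {τ : Fin r → ℂ} (hτ : Generic h τ) {σ β : Type*}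
    [Finite σ] (P : β → MvPolynomial σ (MvPolynomial (Fin r) ℤ))
    (hP : ∀ y : σ → ℂ, (∀ b, eval₂ (aeval τ : MvPolynomial (Fin r) ℤ →ₐ[ℤ] ℂ).toRingHom y (P b) = 0) →
      y = 0) :
    ∃ G : MvPolynomial (Fin r) ℤ, aeval τ G ≠ 0 ∧ ∀ {F : Type} [Field F]
      (φ : MvPolynomial (Fin r) ℤ →+* F), φ h = 0 → φ G ≠ 0 → ∀ y : σ → F,
        (∀ b, eval₂ φ y (P b) = 0) → y = 0 := by
  classical
  have := Fintype.ofFinite σ
  obtain ⟨i, a, b, ha, hb, ha0, hh, h0, hind⟩ := hτ
  choose g M hg hM using fun j => cert P _ hP j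
  refine ⟨a * ∏ j, g j, ?_, ?_⟩
  · rw [map_mul, map_prod]
    exact mul_ne_zero (aeval_ne hind ha ha0) (Finset.prod_ne_zero_iff.2 fun j _ => hg j)
  · intro F _ φ hφ hG y hy
    rw [map_mul, map_prod] at hG
    have hφa := left_ne_zero_of_mul hG
    have hφg := Finset.prod_ne_zero_iff.1 (right_ne_zero_of_mul hG)
    have hker : RingHom.ker (aeval τ : MvPolynomial (Fin r) ℤ →ₐ[ℤ] ℂ).toRingHom ≤ RingHom.ker φ := by
      intro u hu
      rw [RingHom.mem_ker] at hu ⊢
      change aeval τ u = 0 at hu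
      obtain ⟨k, q, ρ, hρ, e⟩ := pseudo ha hb u
      have h1 := congrArg (aeval τ) e
      rw [map_mul, map_add, map_mul, ← hh, h0, hu, mul_zero, mul_zero, zero_add] at h1
      have hρ0 : ρ = 0 := by
        by_contra hne
        exact aeval_ne hind hρ hne h1.symm
      have h2 := congrArg φ e
      rw [map_mul, map_add, map_mul, ← hh, hφ, mul_zero, zero_add, hρ0, map_zero, map_pow] at h2
      exact (mul_eq_zero.1 h2).resolve_left (pow_ne_zero k hφa)
    funext j
    exact trivial_of P _ (hM j) φ hker (hφg j (Finset.mem_univ j)) y hy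

end

end Pool.Agent.U100.ZP
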